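import Pool.Agent.H204R2.Draw
import Pool.Agent.H204R2.Upper3

set_option autoImplicit false

namespace Pool.Agent.Results.MP_9caa86_co.QuadraticPolylineArea

open Pool.Agent.H204R2.BD

/-- The maximum `Ap n`, over the `n`-vertex upward planar bipartite DAGs, of the minimum area of a
poly-line upward planar grid drawing is of order exactly `n ^ 2`. -/
theorem result : ∃ c C : ℝ, 0 < c ∧ 0 < C ∧ ∃ N : ℕ, ∀ n : ℕ, N ≤ n →
    c * (n : ℝ) ^ 2 ≤ (Ap n : ℝ) ∧ (Ap n : ℝ) ≤ C * (n : ℝ) ^ 2 := by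
  refine ⟨1 / 256, 6, by norm_num, by norm_num, 32, fun n hn => ⟨Ap_lower n hn, ?_⟩⟩
  have h1 : (Ap n : ℝ) ≤ (4 * n + 2) * n := by exact_mod_cast Ap_upper n
  have h2 : (32 : ℝ) ≤ n := by exact_mod_cast hn
  nlinarith

end Pool.Agent.Results.MP_9caa86_co.QuadraticPolylineArea
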